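import Pool.Agent.V11222.KM.Basis

/-!
# MP_4ae480: line-thick sets which are locally closed under order operations

An *order operation* is a function `g : ℝ^m → ℝ` which commutes with all nondecreasing maps
`ℝ → ℝ`, for instance the minimum, the maximum or the median. It acts on the points of `ℝ^n`
through the coordinates with respect to a basis. A set `S ⊆ ℝ^n` is *locally order closed* if for
every `p ∈ S` there are a radius `r > 0` and an order operation `g`, not a projection, such that
`g (x_1, …, x_m) ∈ S` for all `x_1, …, x_m ∈ S` at distance at most `r` from `p`.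

Let `S` be a Borel set which is locally order closed. If for the directions `e` of a set of
positive (outer) surface measure some line parallel to `e` meets `S` in positive length, then `S` has
positive Lebesgue measure, and in particular Hausdorff dimension `n`. So the conclusion of the
question holds, without any hypothesis on Besicovitch sets, for all line-thick compact sets which are
locally order closed.
-/

set_option autoImplicit false

open MeasureTheory Set Metric

namespace Pool.Agent.Results.MP_4ae480_an.OrderClosedThick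

/-- `ℝ^n` -/
abbrev E (n : ℕ) := EuclideanSpace ℝ (Fin n)

/-- An order operation: `g : ℝ^m → ℝ` commutes with all nondecreasing maps `φ : ℝ → ℝ`. -/
def OrderOp {m : ℕ} (g : (Fin m → ℝ) → ℝ) : Prop :=
  ∀ φ : ℝ → ℝ, Monotone φ → ∀ x : Fin m → ℝ, g (fun l => φ (x l)) = φ (g x)

/-- `g` is not a projection `(x_1, …, x_m) ↦ x_j`. -/
def Nontrivial {m : ℕ} (g : (Fin m → ℝ) → ℝ) : Prop := ¬ ∃ j, ∀ x, g x = x j

/-- `g` applied to the coordinates with respect to the basis `b` of the points `x_1, …, x_m`. -/
noncomputable def app {n m : ℕ} (b : Module.Basis (Fin n) ℝ (E n)) (g : (Fin m → ℝ) → ℝ)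
    (x : Fin m → E n) : E n :=
  ∑ i, g (fun l => b.repr (x l) i) • b i

/-- For every `p ∈ S` there are `r > 0` and an order operation `g`, not a projection, such that
`g (x_1, …, x_m) ∈ S` for all `x_1, …, x_m ∈ S` at distance at most `r` from `p`. -/
def LocallyOrderClosed {n : ℕ} (b : Module.Basis (Fin n) ℝ (E n)) (S : Set (E n)) : Prop :=
  ∀ p ∈ S, ∃ r : ℝ, 0 < r ∧ ∃ (m : ℕ) (g : (Fin m → ℝ) → ℝ), OrderOp g ∧ Nontrivial g ∧
    ∀ x : Fin m → E n, (∀ l, x l ∈ S ∧ ‖x l - p‖ ≤ r) → app b g x ∈ S

/-- **Main result.** -/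
theorem result (n : ℕ) (hn : 1 ≤ n) (b : Module.Basis (Fin n) ℝ (E n)) (S : Set (E n))
    (hS : MeasurableSet S) (hcl : LocallyOrderClosed b S) (Ω : Set (sphere (0 : E n) 1))
    (hΩ : (volume : Measure (E n)).toSphere Ω ≠ 0)
    (hthick : ∀ e ∈ Ω, ∃ a : E n, volume {t : ℝ | a + t • (e : E n) ∈ S} ≠ 0) :
    0 < volume S ∧ dimH S = n := by
  obtain ⟨m, rfl⟩ : ∃ m, n = m + 1 := ⟨n - 1, by omega⟩
  have h := V11222.KM.thick m b S hS hcl Ω hΩ hthick
  exact ⟨h, V11222.KM.dim_of_vol h⟩

end Pool.Agent.Results.MP_4ae480_an.OrderClosedThick
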